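import Pool.Agent.Helper71.AG2.Goals

/-! PROJECT AG+, packet TWB: two blocks. -/

namespace Pool.Agent.Helper46.AG2

open Pool.Agent.Helper32.AG hiding TwoOut TwbStmt
open Pool.Agent.Helper71.AG2 (TwoOut)

universe u

/-- TWB. -/
theorem twb (hg : GrpStmt.{u}) (h4 : N4Stmt) (ha : TwaStmt.{u})
    (hl : LevStmt.{u}) : Pool.Agent.Helper71.AG2.TwbStmt.{u} := by
  intro p hp U _ _ _ _ H A q e hAH hn hc hcen hpH hD
  obtain ⟨a, b, f, M, ha0, hb0, hf0, hqq, hAM, hMH, hHM, hMA, hfa, hAle, hAdvd, hMc, hnc⟩ :=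
    ha p U H A q e hAH hn hc hcen hD
  have hfin : Finite (U ≃ₗ[ZMod p] U) :=
    Finite.of_injective (fun g : U ≃ₗ[ZMod p] U => (g : U → U)) DFunLike.coe_injective
  have hlev : Levels H 2 q := hl p U H A 2 q e (by norm_num) hD
  have hcard : Nat.card H = 2 * f * Nat.card A := by rw [hHM, hMA]; ring
  have hA0 : 0 < Nat.card A := Nat.card_pos
  have hM0 : 0 < Nat.card M := Nat.card_pos
  have hp2 : p ≠ 2 := by
    rintro rfl
    apply hpH
    rw [hHM]
    exact dvd_mul_right 2 _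
  rcases Nat.lt_or_ge b 2 with hb | hb
  · have hb1 : b = 1 := by omega
    subst hb1
    rw [mul_one] at hqq
    -- the normal subgroup `A` of `H`
    obtain ⟨N, hNdef⟩ : ∃ N : Subgroup H, N = A.subgroupOf H := ⟨_, rfl⟩
    have hNmem : ∀ x : H, x ∈ N ↔ (x : U ≃ₗ[ZMod p] U) ∈ A := by
      intro x
      rw [hNdef, Subgroup.mem_subgroupOf]
    have hNn : N.Normal := ⟨fun n hn' g => by
      rw [hNmem] at hn' ⊢
      exact hn g g.2 n hn'⟩
    have hNc : ∀ x ∈ N, ∀ y ∈ N, x * y = y * x := by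
      intro x hx y hy
      exact Subtype.ext (hc x ((hNmem x).1 hx) y ((hNmem y).1 hy))
    have hNcard : Nat.card N = Nat.card A := by
      rw [hNdef]
      exact Nat.card_congr (Subgroup.subgroupOfEquivOfLe hAH).toEquiv
    have hNi : N.index = 2 * f := by
      have h1 := N.card_mul_index
      rw [hNcard, hcard, mul_comm (2 * f)] at h1
      exact Nat.eq_of_mul_eq_mul_left hA0 h1
    have hQcard : Nat.card (H ⧸ N) = 2 * f := by
      rw [← hNi, Subgroup.index_eq_card]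
    -- commuting modulo `A`
    have hmod : ∀ x y : H, (QuotientGroup.mk' N x) * (QuotientGroup.mk' N y) =
        (QuotientGroup.mk' N y) * (QuotientGroup.mk' N x) ↔
        (x : U ≃ₗ[ZMod p] U) * y * (x : U ≃ₗ[ZMod p] U)⁻¹ * (y : U ≃ₗ[ZMod p] U)⁻¹ ∈ A := by
      intro x y
      have h1 : ((x * y * x⁻¹ * y⁻¹ : H) : U ≃ₗ[ZMod p] U) =
        (x : U ≃ₗ[ZMod p] U) * y * (x : U ≃ₗ[ZMod p] U)⁻¹ * (y : U ≃ₗ[ZMod p] U)⁻¹ := rfl
      rw [← h1, ← hNmem, ← QuotientGroup.eq_one_iff]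
      have h2 : ((x * y * x⁻¹ * y⁻¹ : H) : H ⧸ N) = QuotientGroup.mk' N x *
        QuotientGroup.mk' N y * (QuotientGroup.mk' N x)⁻¹ * (QuotientGroup.mk' N y)⁻¹ := rfl
      rw [h2, mul_inv_eq_one, mul_inv_eq_iff_eq_mul]
    left
    -- class numbers
    obtain ⟨B, hB⟩ : ∃ B : Subgroup (H ⧸ N), B = (M.subgroupOf H).map (QuotientGroup.mk' N) :=
      ⟨_, rfl⟩
    have hMi : (M.subgroupOf H).index = 2 := by
      have h1 := (M.subgroupOf H).card_mul_index
      rw [Nat.card_congr (Subgroup.subgroupOfEquivOfLe hMH).toEquiv, hHM, mul_comm 2] at h1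
      exact Nat.eq_of_mul_eq_mul_left hM0 h1
    have hBi : B.index = 2 := by
      rw [hB, Subgroup.index_map_eq _ (QuotientGroup.mk'_surjective N), hMi]
      rw [QuotientGroup.ker_mk', hNdef]
      intro x hx
      rw [Subgroup.mem_subgroupOf] at hx ⊢
      exact hAM hx
    have hBc : Nat.card B = f := by
      have h1 := B.card_mul_index
      rw [hBi, hQcard, mul_comm] at h1
      exact Nat.eq_of_mul_eq_mul_left (by norm_num) h1
    have hBcomm : ∀ x ∈ B, ∀ y ∈ B, x * y = y * x := by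
      rw [hB]
      rintro _ ⟨x, hx, rfl⟩ _ ⟨y, hy, rfl⟩
      rw [hmod]
      exact hMc x (Subgroup.mem_subgroupOf.1 hx) y (Subgroup.mem_subgroupOf.1 hy)
    have g1 := hg.1 H N hNc
    have g2 := hg.2.1 (H ⧸ N) B hBi hBcomm
    rw [hNi, hNcard] at g1
    rw [hBc] at g2
    have g3 : k (H ⧸ N) ≤ k H := by
      have : 2 * f * k (H ⧸ N) ≤ 2 * f * k H := by omega
      exact Nat.le_of_mul_le_mul_left this (by omega)
    obtain ⟨v, hv⟩ := Nat.exists_eq_add_of_le g3
    refine ⟨a, f, Nat.card A, v, k (H ⧸ N), hp2, ha0, hf0, hA0, hqq ▸ hlev, hfa, ?_, hcard, ?_, g2,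
      ?_⟩
    · intro h
      apply hpH
      rw [hcard]
      exact (h.mul_left 2).mul_right _
    · rw [hv, mul_add] at g1
      omega
    · omega
  · right
    intro r hr
    have hU : Nat.card U = p ^ (2 * a * b) := by
      rw [hlev.2.1, hqq, ← pow_mul]
      congr 1
      ring
    rw [hU] at hr ⊢
    apply h4 p a b r hp.out hp2 ha0 hb
    refine hr.trans ?_
    apply Nat.add_le_add_right
    apply Nat.mul_le_mul_left
    rw [hcard]
    have hf2 : f ≤ a ^ 2 := Nat.le_of_dvd (by positivity) hfa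
    exact Nat.mul_le_mul (Nat.mul_le_mul_left 2 hf2) hAle

end Pool.Agent.Helper46.AG2
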